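import Pool.Agent.W5h10.MD.Cycle

set_option autoImplicit false

/-!
# Mixed metric dimension and cyclomatic number

For every finite connected graph `G` which is not a cycle, `mdim G ≤ ℓ(G) + 2 c(G)`; in particular
`mdim G ≤ 2 c(G)` if `G` is moreover 2-connected.

Proof. Induction on the number of vertices, for the bound `2 + ∑ (deg v - 2)` (sum over the
vertices of degree at least two), which is `ℓ + 2 c` for connected graphs with an edge.

* A leaf is removed; the landmark at its neighbour is moved to the leaf.
* If `G` has an ear (a path of length `l ≥ 2` whose inner vertices have degree two) with a branch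
  vertex at one end, such that the distance `d` of its ends in the rest of the graph is at most
  `l`, then the rest is an isometric subgraph. A resolving set of the rest together with one end of
  the ear and the inner vertex at distance `⌊(l + d - 1) / 2⌋` from it resolves `G`. Closed ears are
  covered too (the second end is then chosen inside the closed ear).
* Otherwise every thread is the unique shortest path between its ends, and the set of branch
  vertices is a mixed resolving set with at most `2 c - 2` elements.
-/

namespace Pool.Agent.Results.MP_ca4ce9_co.MixedDimension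

open SimpleGraph Pool.Agent.W5h10.MD

universe u

variable {V : Type u}

/-- The distance from a vertex `w` to a vertex, or to an edge `ab`, the latter being the smaller
one of the distances from `w` to `a` and to `b`. -/
noncomputable def eltDist (G : SimpleGraph V) (w : V) : V ⊕ G.edgeSet → ℕ
  | Sum.inl v => G.dist w v
  | Sum.inr e => Sym2.lift ⟨fun a b => min (G.dist w a) (G.dist w b), fun _ _ => min_comm _ _⟩ e.1

/-- `S` is a mixed resolving set: any two distinct elements of `V(G) ∪ E(G)` have different
distances from some vertex of `S`. -/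
def IsMixedResolving (G : SimpleGraph V) (S : Finset V) : Prop :=
  ∀ x y : V ⊕ G.edgeSet, x ≠ y → ∃ s ∈ S, eltDist G s x ≠ eltDist G s y

/-- The mixed metric dimension: the smallest size of a mixed resolving set. -/
noncomputable def mdim (G : SimpleGraph V) : ℕ :=
  sInf {k | ∃ S : Finset V, S.card = k ∧ IsMixedResolving G S}

/-- `G` is a cycle `C_n`. -/
def IsCycleGraph (G : SimpleGraph V) : Prop := ∃ n : ℕ, 3 ≤ n ∧ Nonempty (G ≃g cycleGraph n)

/-- The number of leaves. -/
noncomputable def leaves (G : SimpleGraph V) : ℕ := {v : V | (G.neighborSet v).ncard = 1}.ncard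

/-- The cyclomatic number `|E| - |V| + 1`. -/
noncomputable def cyclomatic (G : SimpleGraph V) : ℤ :=
  (G.edgeSet.ncard : ℤ) - (Nat.card V : ℤ) + 1

/-- `G` is 2-connected: it has at least three vertices, is connected and has no cut-vertex. -/
def TwoConnected (G : SimpleGraph V) : Prop :=
  3 ≤ Nat.card V ∧ G.Connected ∧ ∀ v : V, (G.induce {w : V | w ≠ v}).Connected

lemma resolving_of_res {G : SimpleGraph V} {S : Finset V} (h : Res G (S : Set V)) :
    IsMixedResolving G S := by
  have key : ∀ a b c d, El G a b → El G c d → s(a, b) ≠ s(c, d) →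
      ∃ s ∈ S, min (G.dist s a) (G.dist s b) ≠ min (G.dist s c) (G.dist s d) := by
    intro a b c d h1 h2 h3
    by_contra hcon
    push Not at hcon
    exact h3 (h a b c d h1 h2 fun s hs => hcon s (Finset.mem_coe.1 hs))
  rintro (x | ⟨e, he⟩) (y | ⟨f, hf⟩) hxy
  · obtain ⟨s, hs, h1⟩ := key x x y y (Or.inl rfl) (Or.inl rfl) (by
      intro hh
      rcases Sym2.eq_iff.1 hh with ⟨h1, _⟩ | ⟨h1, _⟩
      · exact hxy (congrArg Sum.inl h1)
      · exact hxy (congrArg Sum.inl h1))
    rw [min_self, min_self] at h1
    exact ⟨s, hs, h1⟩
  · induction f using Sym2.ind with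
    | _ a b =>
      have hab : G.Adj a b := hf
      obtain ⟨s, hs, h1⟩ := key x x a b (Or.inl rfl) (Or.inr hab) (by
        intro hh
        rcases Sym2.eq_iff.1 hh with ⟨h1, h2⟩ | ⟨h1, h2⟩
        · exact hab.ne (h1.symm.trans h2)
        · exact hab.ne (h2.symm.trans h1))
      rw [min_self] at h1
      exact ⟨s, hs, h1⟩
  · induction e using Sym2.ind with
    | _ a b =>
      have hab : G.Adj a b := he
      obtain ⟨s, hs, h1⟩ := key a b y y (Or.inr hab) (Or.inl rfl) (by
        intro hh
        rcases Sym2.eq_iff.1 hh with ⟨h1, h2⟩ | ⟨h1, h2⟩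
        · exact hab.ne (h1.trans h2.symm)
        · exact hab.ne (h1.trans h2.symm))
      rw [min_self] at h1
      exact ⟨s, hs, h1⟩
  · induction e using Sym2.ind with
    | _ a b =>
      induction f using Sym2.ind with
      | _ c d =>
        obtain ⟨s, hs, h1⟩ := key a b c d (Or.inr he) (Or.inr hf) (by
          intro hh
          exact hxy (congrArg Sum.inr (Subtype.ext hh)))
        exact ⟨s, hs, h1⟩

lemma mdim_le {G : SimpleGraph V} {S : Finset V} (h : IsMixedResolving G S) :
    mdim G ≤ S.card := Nat.sInf_le ⟨S, rfl, h⟩

lemma bt_eq [Fintype V] {G : SimpleGraph V} (hpos : ∀ v, 1 ≤ dgr G v) :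
    (2 + bt G : ℤ) = leaves G + 2 * cyclomatic G := by
  classical
  have h1 : ∀ v, ((dgr G v - 2 : ℕ) : ℤ) = (dgr G v : ℤ) - 2 + if dgr G v = 1 then 1 else 0 := by
    intro v
    have := hpos v
    split_ifs with h
    · omega
    · omega
  have h2 : (bt G : ℤ) = ∑ v, (dgr G v : ℤ) - 2 * Nat.card V + leaves G := by
    unfold bt
    push_cast
    rw [Finset.sum_congr rfl fun v _ => h1 v, Finset.sum_add_distrib, Finset.sum_sub_distrib]
    have h3 : (∑ v : V, if dgr G v = 1 then (1 : ℤ) else 0) = leaves G := by
      rw [Finset.sum_boole]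
      unfold leaves
      rw [← Set.ncard_coe_finset]
      congr 2
      ext v
      simp [dgr]
    rw [h3, Finset.sum_const, Finset.card_univ, Nat.card_eq_fintype_card]
    simp
    ring
  have h4 : ∑ v, (dgr G v : ℤ) = 2 * (G.edgeSet.ncard : ℤ) := by
    have h5 := G.sum_degrees_eq_twice_card_edges
    have h6 : ∀ v, dgr G v = G.degree v := by
      intro v
      unfold dgr
      rw [← G.card_neighborSet_eq_degree, Set.ncard_eq_toFinset_card', Set.toFinset_card]
    have h7 : G.edgeSet.ncard = G.edgeFinset.card := by
      rw [← SimpleGraph.coe_edgeFinset, Set.ncard_coe_finset]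
    rw [h7]
    rw [Finset.sum_congr rfl fun v _ => by rw [h6 v]]
    exact_mod_cast h5
  unfold cyclomatic
  rw [h2, h4]
  ring

theorem general [Fintype V] (G : SimpleGraph V) (hG : G.Connected) (hcyc : ¬ IsCycleGraph G) :
    (mdim G : ℤ) ≤ leaves G + 2 * cyclomatic G := by
  classical
  have hne := hG.nonempty
  rcases Nat.lt_or_ge (Fintype.card V) 2 with hlt | hge
  · have h1 : Fintype.card V = 1 := by
      have := Fintype.card_pos (α := V)
      omega
    have hsub : Subsingleton V := Fintype.card_le_one_iff_subsingleton.1 h1.le
    have hadj : ∀ a b, ¬ G.Adj a b := fun a b h => h.ne (Subsingleton.elim a b)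
    have h2 : mdim G = 0 := by
      apply Nat.le_zero.1
      refine (mdim_le (S := ∅) ?_).trans (by simp)
      rintro (x | ⟨e, he⟩) (y | ⟨f, hf⟩) hxy
      · exact absurd (congrArg Sum.inl (Subsingleton.elim x y)) hxy
      · induction f using Sym2.ind with
        | _ a b => exact absurd hf (hadj a b)
      · induction e using Sym2.ind with
        | _ a b => exact absurd he (hadj a b)
      · induction f using Sym2.ind with
        | _ a b => exact absurd hf (hadj a b)
    have h3 : G.edgeSet = ∅ := by
      ext e
      induction e using Sym2.ind with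
      | _ a b => simp
    unfold cyclomatic
    rw [h2, h3, Nat.card_eq_fintype_card, h1]
    simp
  · have hpos := fun v => dgr_pos hG hge v
    have hreg : ∃ v, dgr G v ≠ 2 := by
      by_contra hcon
      push Not at hcon
      exact hcyc (iso_cycle hG hcon)
    obtain ⟨S, hS1, hS2⟩ := (main (Fintype.card V) V G rfl hge hG).2 hreg
    have h1 := mdim_le (resolving_of_res hS2)
    rw [← bt_eq hpos]
    have h2 : mdim G ≤ 2 + bt G := h1.trans hS1
    exact_mod_cast h2

/-- **Mixed metric dimension and cyclomatic number.** Every finite connected graph `G` which is not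
a cycle satisfies `mdim G ≤ ℓ(G) + 2 c(G)`; in particular (Q1) every 2-connected graph `G` which is
not a cycle satisfies `mdim G ≤ 2 c(G)`. -/
theorem result :
    (∀ (V : Type u) [Fintype V] (G : SimpleGraph V), G.Connected → ¬ IsCycleGraph G →
      (mdim G : ℤ) ≤ leaves G + 2 * cyclomatic G) ∧
    (∀ (V : Type u) [Fintype V] (G : SimpleGraph V), TwoConnected G → ¬ IsCycleGraph G →
      (mdim G : ℤ) ≤ 2 * cyclomatic G) := by
  refine ⟨fun V _ G hG hc => general G hG hc, fun V _ G h hc => ?_⟩
  obtain ⟨h3, hG, hcut⟩ := h
  have h1 := general G hG hc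
  have h2 : leaves G = 0 := by
    unfold leaves
    rw [Set.ncard_eq_zero (Set.toFinite _), Set.eq_empty_iff_forall_notMem]
    intro w hw
    obtain ⟨v, hv⟩ := dgr_one (G := G) hw
    have hvw : v ≠ w := ((hv v).2 rfl).ne.symm
    -- a third vertex
    rw [Nat.card_eq_fintype_card] at h3
    obtain ⟨x, hx1, hx2⟩ : ∃ x, x ≠ w ∧ x ≠ v := by
      by_contra hcon
      push Not at hcon
      classical
      have : (Finset.univ : Finset V) ⊆ {w, v} := by
        intro x _
        rw [Finset.mem_insert, Finset.mem_singleton]
        by_cases hxw : x = w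
        · exact Or.inl hxw
        · exact Or.inr (hcon x hxw)
      have := (Finset.card_le_card this).trans Finset.card_le_two
      rw [Finset.card_univ] at this
      omega
    -- `v` separates `w` from `x`
    obtain ⟨z, hz, _⟩ := exists_closer (hcut v) (a := ⟨w, hvw.symm⟩) (b := ⟨x, hx2⟩)
      (fun he => hx1 (congrArg Subtype.val he).symm)
    exact z.2 ((hv z.1).1 hz)
  rw [h2] at h1
  simpa using h1

end Pool.Agent.Results.MP_ca4ce9_co.MixedDimension
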